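import Pool.Agent.H49.CE.Targets

/-!
# MP_70000a_co, modules A1 and A2: lifting cliques and pyramids from `V / F g`
-/

set_option autoImplicit false

noncomputable section

namespace Pool.Agent.H24.CE

open _root_.CE
open scoped Classical

section

variable {F : Type} [Field F] {V : Type} [AddCommGroup V] [Module F V]

lemma finrank_comap_mkQ' [Finite V] (K : Submodule F V) (p : Submodule F (V ⧸ K)) :
    Module.finrank F (p.comap K.mkQ) = Module.finrank F p + Module.finrank F K := by
  have h := LinearMap.finrank_range_add_finrank_ker (K.mkQ.domRestrict (p.comap K.mkQ))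
  have h1 : LinearMap.range (K.mkQ.domRestrict (p.comap K.mkQ)) = p := by
    rw [LinearMap.range_domRestrict, Submodule.map_comap_eq_of_surjective K.mkQ_surjective]
  have h2 : Module.finrank F (LinearMap.ker (K.mkQ.domRestrict (p.comap K.mkQ))) =
      Module.finrank F K := by
    rw [LinearMap.ker_domRestrict, Submodule.ker_mkQ]
    have hK : K ≤ p.comap K.mkQ := by
      intro x hx
      rw [Submodule.mem_comap, (Submodule.Quotient.mk_eq_zero K).mpr hx |> (show K.mkQ x = 0 from ·)]
      exact p.zero_mem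
    exact (Submodule.comapSubtypeEquivOfLe hK).finrank_eq
  rw [h1, h2] at h
  exact h.symm

lemma mem_Dq {D : Finset V} {g : V} {z : V ⧸ Submodule.span F {g}} :
    z ∈ Dq F g D ↔ z ≠ 0 ∧ ∃ d ∈ D, (Submodule.span F {g}).mkQ d = z := by
  rw [Dq, Finset.mem_erase, Finset.mem_image]

/-- lifts of the elements of `Z0bar` -/
lemma exists_lifts {D : Finset V} {g : V} (Zb : Finset (V ⧸ Submodule.span F {g}))
    (hZ : Zb ⊆ Dq F g D) : ∃ Z1 : Finset V, Z1 ⊆ D ∧ Z1.image (Submodule.span F {g}).mkQ = Zb ∧
      Z1.card = Zb.card := by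
  have h : ∀ z : V ⧸ Submodule.span F {g}, ∃ d : V, z ∈ Zb → d ∈ D ∧ (Submodule.span F {g}).mkQ d = z := by
    intro z
    by_cases hz : z ∈ Zb
    · obtain ⟨_, d, hd, he⟩ := mem_Dq.mp (hZ hz)
      exact ⟨d, fun _ => ⟨hd, he⟩⟩
    · exact ⟨0, fun h => absurd h hz⟩
  choose f hf using h
  refine ⟨Zb.image f, ?_, ?_, ?_⟩
  · intro x hx
    obtain ⟨z, hz, rfl⟩ := Finset.mem_image.mp hx
    exact (hf z hz).1
  · ext z
    rw [Finset.mem_image]
    constructor
    · rintro ⟨x, hx, rfl⟩
      obtain ⟨z, hz, rfl⟩ := Finset.mem_image.mp hx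
      rw [(hf z hz).2]; exact hz
    · intro hz
      exact ⟨f z, Finset.mem_image_of_mem f hz, (hf z hz).2⟩
  · apply Finset.card_image_of_injOn
    intro z hz z' hz' he
    rw [← (hf z hz).2, ← (hf z' hz').2]
    exact congrArg _ he

lemma span_lifts {g : V} (Z1 : Finset V) :
    Submodule.span F ((insert g Z1 : Finset V) : Set V) =
      (Submodule.span F ((Z1.image (Submodule.span F {g}).mkQ : Finset _) : Set (V ⧸ Submodule.span F {g}))).comap
        (Submodule.span F {g}).mkQ := by
  rw [Finset.coe_image, ← Submodule.map_span, Submodule.comap_map_eq, Submodule.ker_mkQ,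
    Finset.coe_insert, Submodule.span_insert, sup_comm]

lemma lc (C D : Finset V) (g : V) (r : ℕ) (hg : g ∈ D)
    (h : Clique F r (Cq F g C) (Dq F g D)) : Clique F r C D := by
  obtain ⟨Zb, pb, hZ, hp, hind, hadj⟩ := h
  obtain ⟨Z1, hZ1, hZi, _⟩ := exists_lifts Zb hZ
  have hp' : ∀ i, ∃ x ∈ C, (Submodule.span F {g}).mkQ x = pb i := by
    intro i
    have := hp i
    rwa [Cq, Finset.mem_image] at this
  choose p hpC hpe using hp'
  have hspan := span_lifts (F := F) (g := g) Z1
  rw [hZi] at hspan
  refine ⟨insert g Z1, p, ?_, hpC, ?_, ?_⟩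
  · exact Finset.insert_subset hg hZ1
  · intro c hc hmem
    rw [hspan, Submodule.mem_comap, map_sum] at hmem
    simp only [map_smul, hpe] at hmem
    exact hind c hc hmem
  · intro i j hij
    obtain ⟨d, hd, hd2⟩ := hadj i j hij
    obtain ⟨_, d', hd', rfl⟩ := mem_Dq.mp hd
    refine ⟨d', hd', ?_⟩
    rw [hspan, Submodule.mem_comap, map_sub, map_sub, hpe, hpe]
    exact hd2

lemma kml (D : Finset V) (g : V) (m : ℕ) (hg : g ∈ D)
    (h : KM F m (Dq F g D)) : KM F m D := by
  obtain ⟨Zb, pb, hZ, hind, hadj⟩ := h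
  obtain ⟨Z1, hZ1, hZi, _⟩ := exists_lifts Zb hZ
  have hp' : ∀ i, ∃ x : V, (Submodule.span F {g}).mkQ x = pb i := by
    intro i
    exact (Submodule.span F {g}).mkQ_surjective (pb i)
  choose p hpe using hp'
  have hspan := span_lifts (F := F) (g := g) Z1
  rw [hZi] at hspan
  refine ⟨insert g Z1, p, ?_, ?_, ?_⟩
  · exact Finset.insert_subset hg hZ1
  · intro c hc hmem
    rw [hspan, Submodule.mem_comap, map_sum] at hmem
    simp only [map_smul, hpe] at hmem
    exact hind c hc hmem
  · intro i j hij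
    obtain ⟨d, hd, hd2⟩ := hadj i j hij
    obtain ⟨_, d', hd', rfl⟩ := mem_Dq.mp hd
    refine ⟨d', hd', ?_⟩
    rw [hspan, Submodule.mem_comap, map_sub, map_sub, hpe, hpe]
    exact hd2

lemma lp [Finite V] (C D : Finset V) (g : V) (a n : ℕ) (hg : g ∈ D)
    (h : Pyr F a n (Cq F g C) (Dq F g D)) : Pyr F a n C D := by
  obtain ⟨Zb, Gb, pb, xb, hZ, hZG, hdim, hp, hx, hxG, hind, hdist⟩ := h
  obtain ⟨Z1, hZ1, hZi, _⟩ := exists_lifts Zb hZ
  have hp' : ∀ i, ∃ x ∈ C, (Submodule.span F {g}).mkQ x = pb i := by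
    intro i
    have := hp i
    rwa [Cq, Finset.mem_image] at this
  choose p hpC hpe using hp'
  have hx' : ∀ j i, ∃ x ∈ C, (Submodule.span F {g}).mkQ x = xb j i := by
    intro j i
    have := hx j i
    rwa [Cq, Finset.mem_image] at this
  choose x hxC hxe using hx'
  have hspan := span_lifts (F := F) (g := g) Z1
  rw [hZi] at hspan
  refine ⟨insert g Z1, Gb.comap (Submodule.span F {g}).mkQ, p, x, Finset.insert_subset hg hZ1,
    ?_, ?_, hpC, hxC, ?_, ?_, ?_⟩
  · rw [hspan]; exact Submodule.comap_mono hZG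
  · rw [hspan, finrank_comap_mkQ', finrank_comap_mkQ']
    omega
  · intro j i
    rw [Submodule.mem_comap, map_sub, hxe, hpe]
    exact hxG j i
  · intro j c hmem
    rw [hspan, Submodule.mem_comap, map_sum] at hmem
    simp only [map_smul, map_sub, hpe, hxe] at hmem
    exact hind j c hmem
  · intro j j' hj
    rw [Submodule.mem_comap, map_sub, hpe, hpe] at hj
    exact hdist j j' hj

lemma lp2 [Finite V] (C D : Finset V) (g : V) (a n : ℕ) (hg0 : g ≠ 0)
    (h : Pyr F a n (C2 F g C) (Dq F g D)) : Pyr F (a + 1) n C D := by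
  obtain ⟨Zb, Gb, pb, xb, hZ, hZG, hdim, hp, hx, hxG, hind, hdist⟩ := h
  -- a basis inside `Zb`
  obtain ⟨B, hBZ, hBs, hBi⟩ := exists_linearIndependent F (Zb : Set (V ⧸ Submodule.span F {g}))
  have hBfin : B.Finite := Zb.finite_toSet.subset hBZ
  set Bf : Finset (V ⧸ Submodule.span F {g}) := hBfin.toFinset with hBf
  have hBc : (Bf : Set (V ⧸ Submodule.span F {g})) = B := hBfin.coe_toFinset
  have hBsub : Bf ⊆ Zb := by
    intro z hz
    exact hBZ (by rwa [← hBc])
  obtain ⟨Z1, hZ1, hZi, hcard⟩ := exists_lifts Bf (hBsub.trans hZ)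
  have hspanB : Submodule.span F (Bf : Set (V ⧸ Submodule.span F {g})) =
      Submodule.span F (Zb : Set (V ⧸ Submodule.span F {g})) := by rw [hBc, hBs]
  have hmap : (Submodule.span F (Z1 : Set V)).map (Submodule.span F {g}).mkQ =
      Submodule.span F (Zb : Set (V ⧸ Submodule.span F {g})) := by
    rw [Submodule.map_span, ← Finset.coe_image, hZi, hspanB]
  -- dimension count: the lifts are independent modulo `g`
  have hfin1 : Module.finrank F (Submodule.span F (Zb : Set (V ⧸ Submodule.span F {g}))) = Bf.card := by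
    rw [← hspanB, hBc]
    have : Fintype B := hBfin.fintype
    rw [finrank_span_set_eq_card (R := F) (s := B) hBi, ← Set.ncard_eq_toFinset_card',
      Set.ncard_eq_toFinset_card B hBfin]
  have hdisj : Submodule.span F (Z1 : Set V) ⊓ Submodule.span F {g} = ⊥ := by
    have h := LinearMap.finrank_range_add_finrank_ker
      ((Submodule.span F {g}).mkQ.domRestrict (Submodule.span F (Z1 : Set V)))
    rw [LinearMap.range_domRestrict, hmap, hfin1, LinearMap.ker_domRestrict, Submodule.ker_mkQ] at h
    have h2 : Module.finrank F (Submodule.span F (Z1 : Set V)) ≤ Bf.card := by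
      rw [← hcard]
      exact finrank_span_finset_le_card Z1
    have h3 : Module.finrank F ((Submodule.span F {g}).comap (Submodule.span F (Z1 : Set V)).subtype) = 0 := by
      have : Module.finrank F ((Submodule.span F {g}).comap (Submodule.span F (Z1 : Set V)).subtype) =
          Module.finrank F (Submodule.comap (Submodule.span F (Z1 : Set V)).subtype (Submodule.span F {g})) := rfl
      omega
    rw [Submodule.finrank_eq_zero] at h3
    rw [eq_bot_iff]
    rintro y ⟨hy1, hy2⟩
    have h4 : (⟨y, hy1⟩ : Submodule.span F (Z1 : Set V)) ∈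
        (Submodule.span F {g}).comap (Submodule.span F (Z1 : Set V)).subtype := hy2
    rw [h3, Submodule.mem_bot] at h4
    exact congrArg Subtype.val h4
  have hp' : ∀ j, ∃ x ∈ C, ∃ x' ∈ C, x ≠ x' ∧ (Submodule.span F {g}).mkQ x = pb j ∧
      (Submodule.span F {g}).mkQ x' = pb j := by
    intro j
    have := hp j
    rw [C2, Finset.mem_filter] at this
    obtain ⟨x, hx, x', hx', hne⟩ := Finset.one_lt_card.mp this.2
    rw [Finset.mem_filter] at hx hx'
    exact ⟨x, hx.1, x', hx'.1, hne, hx.2, hx'.2⟩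
  choose p hpC p' hp'C hne hpe hp'e using hp'
  have hx' : ∀ j i, ∃ x ∈ C, (Submodule.span F {g}).mkQ x = xb j i := by
    intro j i
    have := hx j i
    rw [C2, Finset.mem_filter, Cq, Finset.mem_image] at this
    exact this.1
  choose x hxC hxe using hx'
  refine ⟨Z1, Gb.comap (Submodule.span F {g}).mkQ, p, fun j => Fin.cons (p' j) (x j), hZ1,
    ?_, ?_, hpC, ?_, ?_, ?_, ?_⟩
  · rw [← Submodule.map_le_iff_le_comap, hmap]; exact hZG
  · rw [finrank_comap_mkQ', finrank_span_singleton hg0]
    have h5 : Module.finrank F (Submodule.span F (Zb : Set (V ⧸ Submodule.span F {g}))) ≤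
        Module.finrank F (Submodule.span F (Z1 : Set V)) := by
      rw [← hmap]
      exact Submodule.finrank_map_le _ _
    omega
  · intro j i
    refine Fin.cases ?_ (fun i => ?_) i
    · exact hp'C j
    · exact hxC j i
  · intro j i
    refine Fin.cases ?_ (fun i => ?_) i
    · simp only [Fin.cons_zero]
      rw [Submodule.mem_comap, map_sub, hp'e, hpe, sub_self]
      exact Gb.zero_mem
    · simp only [Fin.cons_succ]
      rw [Submodule.mem_comap, map_sub, hxe, hpe]
      exact hxG j i
  · intro j c hmem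
    rw [Fin.sum_univ_succ] at hmem
    simp only [Fin.cons_zero, Fin.cons_succ] at hmem
    have hmem2 : (Submodule.span F {g}).mkQ (c 0 • (p' j - p j) + ∑ i : Fin a, c i.succ • (x j i - p j)) ∈
        Submodule.span F (Zb : Set (V ⧸ Submodule.span F {g})) := by
      rw [← hmap]
      exact Submodule.mem_map_of_mem hmem
    rw [map_add, map_smul, map_sub, hp'e, hpe, sub_self, smul_zero, zero_add, map_sum] at hmem2
    simp only [map_smul, map_sub, hpe, hxe] at hmem2
    have h6 := hind j (fun i => c i.succ) hmem2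
    have h7 : ∀ i : Fin a, c i.succ = 0 := fun i => congrFun h6 i
    simp only [h7, zero_smul, Finset.sum_const_zero, add_zero] at hmem
    have h8 : c 0 • (p' j - p j) ∈ Submodule.span F (Z1 : Set V) ⊓ Submodule.span F {g} := by
      refine ⟨hmem, Submodule.smul_mem _ _ ?_⟩
      rw [← Submodule.ker_mkQ (Submodule.span F {g}), LinearMap.mem_ker, map_sub, hp'e, hpe, sub_self]
    rw [hdisj, Submodule.mem_bot, smul_eq_zero] at h8
    have h9 : c 0 = 0 := by
      rcases h8 with h8 | h8
      · exact h8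
      · exact absurd (sub_eq_zero.mp h8).symm (hne j)
    funext i
    refine Fin.cases ?_ (fun i => ?_) i
    · exact h9
    · exact h7 i
  · intro j j' hj
    rw [Submodule.mem_comap, map_sub, hpe, hpe] at hj
    exact hdist j j' hj

end

theorem t_LC : T_LC := by
  intro F _ _ V _ _ _ C D g r _ hg h
  exact lc C D g r hg h

theorem t_LP : T_LP := by
  intro F _ _ V _ _ _ C D g a n _ hg h
  exact lp C D g a n hg h

theorem t_KML : T_KML := by
  intro F _ _ V _ _ _ D g m _ hg h
  exact kml D g m hg h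

theorem t_LP2 : T_LP2 := by
  intro F _ _ V _ _ _ C D g a n hD hg h
  exact lp2 C D g a n (fun h0 => hD.1 (h0 ▸ hg)) h

end Pool.Agent.H24.CE
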