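import Pool.Agent.H49.CE.Targets

/-!
# MP_70000a_co, module B1: basic facts on `Ind` and `ZZ`
-/

set_option autoImplicit false

noncomputable section

namespace Pool.Agent.H24.CE

open _root_.CE
open scoped Classical

section

variable {F : Type} [Field F] {V : Type} [AddCommGroup V] [Module F V] {ι : Type}

lemma ind_mono {v : ι → V} {W W' : Submodule F V} (h : W ≤ W') {J : Finset ι}
    (hJ : Ind F v W' J) : Ind F v W J := fun c hc => hJ c (h hc)

lemma ind_empty (v : ι → V) (W : Submodule F V) : Ind F v W ∅ := by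
  intro c _ i hi
  exact absurd hi (Finset.notMem_empty i)

lemma ind_notMem {v : ι → V} {W : Submodule F V} {J : Finset ι} (hJ : Ind F v W J) {i : ι}
    (hi : i ∈ J) : v i ∉ W := by
  intro h
  have := hJ (fun k => if k = i then 1 else 0) (by
    simp only [ite_smul, one_smul, zero_smul]
    rw [Finset.sum_ite_eq' J i v, if_pos hi]
    exact h) i hi
  simp at this

lemma ind_iff_of_subset {v : ι → V} {W : Submodule F V} {B J : Finset ι} (hBJ : B ⊆ J) :
    Ind F v W J ↔ Ind F v (W ⊔ sp F v B) (J \ B) ∧ Ind F v W B := by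
  constructor
  · intro h
    constructor
    · intro c hc
      obtain ⟨w, hw, s, hs, hws⟩ := Submodule.mem_sup.mp hc
      obtain ⟨a, ha⟩ := (Submodule.mem_span_image_finset_iff_exists_fun' F).mp hs
      have h1 := h (fun i => if i ∈ B then - a i else c i) (by
        rw [← Finset.sum_sdiff hBJ]
        have e1 : ∑ i ∈ J \ B, (if i ∈ B then - a i else c i) • v i = ∑ i ∈ J \ B, c i • v i := by
          apply Finset.sum_congr rfl
          intro i hi
          rw [if_neg (Finset.mem_sdiff.mp hi).2]
        have e2 : ∑ i ∈ B, (if i ∈ B then - a i else c i) • v i = - ∑ i ∈ B, a i • v i := by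
          rw [← Finset.sum_neg_distrib]
          apply Finset.sum_congr rfl
          intro i hi
          rw [if_pos hi, neg_smul]
        rw [e1, e2, ha, ← hws]
        simpa using hw)
      intro i hi
      have h2 := h1 i (Finset.mem_sdiff.mp hi).1
      rwa [if_neg (Finset.mem_sdiff.mp hi).2] at h2
    · intro c hc i hi
      have h1 := h (fun i => if i ∈ B then c i else 0) (by
        rw [← Finset.sum_sdiff hBJ]
        have e1 : ∑ i ∈ J \ B, (if i ∈ B then c i else 0) • v i = 0 := by
          apply Finset.sum_eq_zero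
          intro i hi
          rw [if_neg (Finset.mem_sdiff.mp hi).2, zero_smul]
        have e2 : ∑ i ∈ B, (if i ∈ B then c i else 0) • v i = ∑ i ∈ B, c i • v i := by
          apply Finset.sum_congr rfl
          intro i hi
          rw [if_pos hi]
        rw [e1, e2, zero_add]
        exact hc) i (hBJ hi)
      rwa [if_pos hi] at h1
  · rintro ⟨h1, h2⟩ c hc
    rw [← Finset.sum_sdiff hBJ] at hc
    have h3 : ∀ i ∈ J \ B, c i = 0 := by
      apply h1
      have h4 : ∑ i ∈ B, c i • v i ∈ sp F v B :=
        Submodule.sum_mem _ (fun i hi => Submodule.smul_mem _ _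
          (Submodule.subset_span ⟨i, hi, rfl⟩))
      have h5 : ∑ i ∈ J \ B, c i • v i =
          (∑ i ∈ J \ B, c i • v i + ∑ i ∈ B, c i • v i) - ∑ i ∈ B, c i • v i := by abel
      rw [h5]
      exact Submodule.sub_mem _ (Submodule.mem_sup_left hc) (Submodule.mem_sup_right h4)
    have h6 : ∑ i ∈ J \ B, c i • v i = 0 := by
      apply Finset.sum_eq_zero
      intro i hi
      rw [h3 i hi, zero_smul]
    rw [h6, zero_add] at hc
    intro i hi
    by_cases hB : i ∈ B
    · exact h2 c hc i hB
    · exact h3 i (Finset.mem_sdiff.mpr ⟨hi, hB⟩)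

lemma ZZ_anti {v : ι → V} {N : Finset ι} {x : ℝ} (hx : 0 ≤ x) {W W' : Submodule F V}
    (h : W ≤ W') : ZZ F v N x W' ≤ ZZ F v N x W := by
  unfold ZZ
  apply Finset.sum_le_sum_of_subset_of_nonneg
  · intro J hJ
    rw [Finset.mem_filter] at hJ ⊢
    exact ⟨hJ.1, ind_mono h hJ.2⟩
  · intro J _ _
    positivity

lemma one_le_ZZ {v : ι → V} {N : Finset ι} {x : ℝ} (hx : 0 ≤ x) (W : Submodule F V) :
    1 ≤ ZZ F v N x W := by
  unfold ZZ
  have h := Finset.single_le_sum (f := fun J : Finset ι => x ^ J.card)
    (s := N.powerset.filter (Ind F v W)) (fun J _ => by positivity) (a := ∅)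
    (Finset.mem_filter.mpr ⟨Finset.empty_mem_powerset N, ind_empty v W⟩)
  simpa using h

lemma ZZ_le_exp {v : ι → V} {N : Finset ι} {x : ℝ} (hx : 0 ≤ x) (W : Submodule F V) :
    ZZ F v N x W ≤ Real.exp (x * N.card) := by
  calc ZZ F v N x W ≤ ∑ J ∈ N.powerset, x ^ J.card := by
        unfold ZZ
        apply Finset.sum_le_sum_of_subset_of_nonneg (Finset.filter_subset _ _)
        intro J _ _
        positivity
    _ = (x + 1) ^ N.card := by
        rw [← Finset.sum_pow_mul_eq_add_pow]
        simp
    _ ≤ (Real.exp x) ^ N.card := by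
        apply pow_le_pow_left₀ (by linarith)
        exact Real.add_one_le_exp x
    _ = Real.exp (x * N.card) := by
        rw [← Real.exp_nat_mul, mul_comm]

lemma ZZ_top {v : ι → V} {N : Finset ι} {x : ℝ} : ZZ F v N x ⊤ = 1 := by
  unfold ZZ
  have : N.powerset.filter (Ind F v ⊤) = {∅} := by
    ext J
    rw [Finset.mem_filter, Finset.mem_singleton]
    constructor
    · rintro ⟨_, h⟩
      by_contra hne
      obtain ⟨i, hi⟩ := Finset.nonempty_iff_ne_empty.mpr hne
      exact ind_notMem h hi Submodule.mem_top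
    · rintro rfl
      exact ⟨Finset.empty_mem_powerset N, ind_empty v ⊤⟩
  rw [this]
  simp

end

theorem t_Z1 : T_Z1 := by
  intro F _ _ V _ _ _ ι v N x hx
  exact ⟨fun W W' h => ZZ_anti hx h, fun W => one_le_ZZ hx W, fun W => ZZ_le_exp hx W, ZZ_top⟩

theorem t_Z2 : T_Z2 := by
  intro F _ _ V _ _ _ ι v N x W B hBN hB
  unfold ZZ
  rw [Finset.mul_sum]
  symm
  refine Finset.sum_bij' (fun J _ => B ∪ J) (fun J _ => J \ B) ?_ ?_ ?_ ?_ ?_
  · intro J hJ
    rw [Finset.mem_filter, Finset.mem_powerset] at hJ ⊢
    have hd : Disjoint B J := by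
      rw [Finset.disjoint_left]
      intro i hiB hiJ
      exact ind_notMem hJ.2 hiJ (Submodule.mem_sup_right (Submodule.subset_span ⟨i, hiB, rfl⟩))
    refine ⟨Finset.union_subset hBN hJ.1, ?_, Finset.subset_union_left⟩
    rw [ind_iff_of_subset (B := B) Finset.subset_union_left]
    rw [Finset.union_sdiff_cancel_left hd]
    exact ⟨hJ.2, hB⟩
  · intro J hJ
    rw [Finset.mem_filter, Finset.mem_powerset] at hJ ⊢
    refine ⟨Finset.sdiff_subset.trans hJ.1, ?_⟩
    exact ((ind_iff_of_subset hJ.2.2).mp hJ.2.1).1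
  · intro J hJ
    rw [Finset.mem_filter, Finset.mem_powerset] at hJ
    have hd : Disjoint B J := by
      rw [Finset.disjoint_left]
      intro i hiB hiJ
      exact ind_notMem hJ.2 hiJ (Submodule.mem_sup_right (Submodule.subset_span ⟨i, hiB, rfl⟩))
    exact Finset.union_sdiff_cancel_left hd
  · intro J hJ
    rw [Finset.mem_filter, Finset.mem_powerset] at hJ
    exact Finset.union_sdiff_of_subset hJ.2.2
  · intro J hJ
    rw [Finset.mem_filter, Finset.mem_powerset] at hJ
    have hd : Disjoint B J := by
      rw [Finset.disjoint_left]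
      intro i hiB hiJ
      exact ind_notMem hJ.2 hiJ (Submodule.mem_sup_right (Submodule.subset_span ⟨i, hiB, rfl⟩))
    rw [Finset.card_union_of_disjoint hd, pow_add]

theorem t_Z3 : T_Z3 := by
  intro F _ _ V _ _ _ ι v N x W X hx hWX
  unfold ZZ
  rw [Finset.sum_mul_sum, ← Finset.sum_product']
  set S := N.powerset.filter (Ind F v X) with hS
  set T := (N.filter (fun i => v i ∈ X)).powerset.filter (Ind F v W) with hT
  have hdis : ∀ p ∈ S ×ˢ T, Disjoint p.1 p.2 := by
    intro p hp
    rw [Finset.mem_product, hS, hT, Finset.mem_filter, Finset.mem_filter, Finset.mem_powerset,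
      Finset.mem_powerset] at hp
    rw [Finset.disjoint_left]
    intro i h1 h2
    exact ind_notMem hp.1.2 h1 (Finset.mem_filter.mp (hp.2.1 h2)).2
  have hinj : Set.InjOn (fun p : Finset ι × Finset ι => p.1 ∪ p.2) (S ×ˢ T : Finset _) := by
    intro p hp p' hp' he
    have key : ∀ p ∈ S ×ˢ T, (p.1 ∪ p.2).filter (fun i => v i ∈ X) = p.2 := by
      intro p hp
      rw [Finset.mem_product, hS, hT, Finset.mem_filter, Finset.mem_filter, Finset.mem_powerset,
        Finset.mem_powerset] at hp
      ext i
      rw [Finset.mem_filter, Finset.mem_union]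
      constructor
      · rintro ⟨h | h, hX⟩
        · exact absurd hX (ind_notMem hp.1.2 h)
        · exact h
      · intro h
        exact ⟨Or.inr h, (Finset.mem_filter.mp (hp.2.1 h)).2⟩
    have he' : p.1 ∪ p.2 = p'.1 ∪ p'.2 := he
    have h2 : p.2 = p'.2 := by
      rw [← key p hp, ← key p' hp', he']
    have h1 : p.1 = p'.1 := by
      rw [← Finset.union_sdiff_cancel_right (hdis p hp), ← Finset.union_sdiff_cancel_right (hdis p' hp'),
        he', h2]
    exact Prod.ext h1 h2
  calc ∑ p ∈ S ×ˢ T, x ^ p.1.card * x ^ p.2.card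
      = ∑ p ∈ S ×ˢ T, x ^ (p.1 ∪ p.2).card := by
        apply Finset.sum_congr rfl
        intro p hp
        rw [Finset.card_union_of_disjoint (hdis p hp), pow_add]
    _ = ∑ J ∈ (S ×ˢ T).image (fun p : Finset ι × Finset ι => p.1 ∪ p.2), x ^ J.card := by
        rw [Finset.sum_image hinj]
    _ ≤ ∑ J ∈ N.powerset.filter (Ind F v W), x ^ J.card := by
        apply Finset.sum_le_sum_of_subset_of_nonneg
        · intro J hJ
          obtain ⟨p, hp, rfl⟩ := Finset.mem_image.mp hJ
          have hd := hdis p hp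
          rw [Finset.mem_product, hS, hT, Finset.mem_filter, Finset.mem_filter, Finset.mem_powerset,
            Finset.mem_powerset] at hp
          rw [Finset.mem_filter, Finset.mem_powerset]
          refine ⟨Finset.union_subset hp.1.1 (hp.2.1.trans (Finset.filter_subset _ _)), ?_⟩
          rw [ind_iff_of_subset (B := p.2) Finset.subset_union_right,
            Finset.union_sdiff_cancel_right hd]
          refine ⟨ind_mono ?_ hp.1.2, hp.2.2⟩
          refine sup_le hWX (Submodule.span_le.mpr ?_)
          rintro _ ⟨i, hi, rfl⟩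
          exact (Finset.mem_filter.mp (hp.2.1 hi)).2
        · intro J _ _
          positivity

end Pool.Agent.H24.CE
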