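import Pool.Agent.H24.CE.B1

/-!
# MP_70000a_co, module B2: density from a bound on `ZZ`
-/

set_option autoImplicit false

noncomputable section

namespace Pool.Agent.H24.CE

open _root_.CE
open scoped Classical

section

variable {F : Type} [Field F] {V : Type} [AddCommGroup V] [Module F V] {ι : Type}

/-- independent sets of size `h` -/
def IS (v : ι → V) (N : Finset ι) (X : Submodule F V) (h : ℕ) : Finset (Finset ι) :=
  (N.powerset.filter (Ind F v X)).filter (fun J => J.card = h)

lemma mem_IS {v : ι → V} {N : Finset ι} {X : Submodule F V} {h : ℕ} {J : Finset ι} :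
    J ∈ IS v N X h ↔ J ⊆ N ∧ Ind F v X J ∧ J.card = h := by
  rw [IS, Finset.mem_filter, Finset.mem_filter, Finset.mem_powerset, and_assoc]

lemma IS_zero {v : ι → V} {N : Finset ι} {X : Submodule F V} : (IS v N X 0).card = 1 := by
  have : IS v N X 0 = {∅} := by
    ext J
    rw [mem_IS, Finset.mem_singleton, Finset.card_eq_zero]
    constructor
    · rintro ⟨_, _, h⟩
      exact h
    · rintro rfl
      exact ⟨Finset.empty_subset N, ind_empty v X, rfl⟩
  rw [this, Finset.card_singleton]

lemma sp_singleton {v : ι → V} (i : ι) : sp F v {i} = Submodule.span F {v i} := by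
  unfold sp
  simp

lemma ind_singleton {v : ι → V} {X : Submodule F V} {i : ι} (hi : v i ∉ X) : Ind F v X {i} := by
  intro c hc j hj
  rw [Finset.mem_singleton] at hj
  subst hj
  rw [Finset.sum_singleton] at hc
  by_contra h0
  exact hi ((Submodule.smul_mem_iff X h0).mp hc)

lemma cnt {v : ι → V} {N : Finset ι} {X : Submodule F V} (h : ℕ) :
    (h + 1) * (IS v N X (h + 1)).card =
      ∑ i ∈ N.filter (fun i => v i ∉ X), (IS v N (X ⊔ Submodule.span F {v i}) h).card := by
  have h1 : (h + 1) * (IS v N X (h + 1)).card = ∑ J ∈ IS v N X (h + 1), (h + 1) := by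
    rw [Finset.sum_const, smul_eq_mul, mul_comm]
  have h2 : ∑ J ∈ IS v N X (h + 1), (h + 1) =
      ∑ J ∈ IS v N X (h + 1), ((N.filter (fun i => v i ∉ X)).filter (fun i => i ∈ J)).card := by
    apply Finset.sum_congr rfl
    intro J hJ
    obtain ⟨hJN, hJi, hJc⟩ := mem_IS.mp hJ
    have : (N.filter (fun i => v i ∉ X)).filter (fun i => i ∈ J) = J := by
      ext i
      rw [Finset.mem_filter, Finset.mem_filter]
      constructor
      · rintro ⟨_, h⟩
        exact h
      · intro h
        exact ⟨⟨hJN h, ind_notMem hJi h⟩, h⟩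
    rw [this, hJc]
  rw [h1, h2]
  simp_rw [Finset.card_filter (fun i => i ∈ _)]
  rw [Finset.sum_comm]
  apply Finset.sum_congr rfl
  intro i hi
  rw [Finset.mem_filter] at hi
  rw [← Finset.card_filter]
  refine Finset.card_bij' (fun J _ => J.erase i) (fun J _ => insert i J) ?_ ?_ ?_ ?_
  · intro J hJ
    rw [Finset.mem_filter] at hJ
    obtain ⟨⟨hJN, hJi, hJc⟩, hiJ⟩ := And.imp mem_IS.mp id hJ
    rw [mem_IS]
    refine ⟨(Finset.erase_subset _ _).trans hJN, ?_, ?_⟩
    · have := ((ind_iff_of_subset (B := {i}) (Finset.singleton_subset_iff.mpr hiJ)).mp hJi).1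
      rwa [sp_singleton, Finset.sdiff_singleton_eq_erase] at this
    · rw [Finset.card_erase_of_mem hiJ, hJc]; rfl
  · intro J hJ
    obtain ⟨hJN, hJi, hJc⟩ := mem_IS.mp hJ
    have hiJ : i ∉ J := by
      intro h
      exact ind_notMem hJi h (Submodule.mem_sup_right (Submodule.mem_span_singleton_self _))
    rw [Finset.mem_filter, mem_IS]
    refine ⟨⟨Finset.insert_subset hi.1 hJN, ?_, ?_⟩, Finset.mem_insert_self _ _⟩
    · rw [ind_iff_of_subset (B := {i}) (Finset.singleton_subset_iff.mpr (Finset.mem_insert_self _ _)),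
        sp_singleton, Finset.sdiff_singleton_eq_erase, Finset.erase_insert hiJ]
      exact ⟨hJi, ind_singleton hi.2⟩
    · rw [Finset.card_insert_of_notMem hiJ, hJc]
  · intro J hJ
    rw [Finset.mem_filter] at hJ
    exact Finset.insert_erase hJ.2
  · intro J hJ
    obtain ⟨hJN, hJi, hJc⟩ := mem_IS.mp hJ
    have hiJ : i ∉ J := by
      intro h
      exact ind_notMem hJi h (Submodule.mem_sup_right (Submodule.mem_span_singleton_self _))
    exact Finset.erase_insert hiJ

lemma finrank_sup_singleton [Finite V] {X : Submodule F V} {w : V} (hw : w ∉ X) :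
    Module.finrank F (X ⊔ Submodule.span F {w} : Submodule F V) = Module.finrank F X + 1 := by
  have h1 := Submodule.finrank_sup_add_finrank_inf_eq X (Submodule.span F {w})
  have hw0 : w ≠ 0 := fun h => hw (h ▸ X.zero_mem)
  have h2 : X ⊓ Submodule.span F {w} = ⊥ := by
    rw [eq_bot_iff]
    rintro y ⟨hy, hy2⟩
    obtain ⟨a, rfl⟩ := Submodule.mem_span_singleton.mp hy2
    by_cases ha : a = 0
    · simp [ha]
    · exact absurd ((Submodule.smul_mem_iff X ha).mp hy) hw
  rw [h2, finrank_bot, finrank_span_singleton hw0] at h1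
  omega

/-- lower bound for the number of independent sets -/
lemma IS_lower [Finite V] {v : ι → V} {N : Finset ι} {tau : ℝ} (htau : 0 < tau)
    {W Y : Submodule F V} (hN : ∀ i ∈ N, v i ∈ Y)
    (hlow : ∀ X : Submodule F V, W ≤ X → X < Y →
      tau * ((Module.finrank F Y : ℝ) - Module.finrank F X) ≤
        ((N.filter (fun i => v i ∉ X)).card : ℝ)) (h : ℕ) :
    ∀ X : Submodule F V, W ≤ X → X ≤ Y →
      (((Module.finrank F Y - Module.finrank F X).choose h : ℕ) : ℝ) * tau ^ h ≤
        ((IS v N X h).card : ℝ) := by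
  induction h with
  | zero =>
    intro X _ _
    rw [IS_zero]
    simp
  | succ h ih =>
    intro X hWX hXY
    rcases eq_or_lt_of_le hXY with rfl | hlt
    · simp
    · have hfr : Module.finrank F X < Module.finrank F Y := Submodule.finrank_lt_finrank_of_lt hlt
      obtain ⟨r, hr⟩ : ∃ r, Module.finrank F Y - Module.finrank F X = r + 1 :=
        ⟨Module.finrank F Y - Module.finrank F X - 1, by omega⟩
      have hc := cnt (F := F) (v := v) (N := N) (X := X) h
      have h1 : ∀ i ∈ N.filter (fun i => v i ∉ X),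
          ((r.choose h : ℕ) : ℝ) * tau ^ h ≤
            ((IS v N (X ⊔ Submodule.span F {v i}) h).card : ℝ) := by
        intro i hi
        rw [Finset.mem_filter] at hi
        have h2 := ih (X ⊔ Submodule.span F {v i}) (hWX.trans le_sup_left)
          (sup_le hXY ((Submodule.span_singleton_le_iff_mem _ _).mpr (hN i hi.1)))
        rw [finrank_sup_singleton hi.2] at h2
        have h3 : Module.finrank F Y - (Module.finrank F X + 1) = r := by omega
        rwa [h3] at h2
      have h4 : ((N.filter (fun i => v i ∉ X)).card : ℝ) * (((r.choose h : ℕ) : ℝ) * tau ^ h) ≤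
          ((h : ℝ) + 1) * ((IS v N X (h + 1)).card : ℝ) := by
        have h5 : ((h : ℝ) + 1) * ((IS v N X (h + 1)).card : ℝ) =
            ∑ i ∈ N.filter (fun i => v i ∉ X),
              ((IS v N (X ⊔ Submodule.span F {v i}) h).card : ℝ) := by
          exact_mod_cast hc
        rw [h5, ← nsmul_eq_mul, ← Finset.sum_const]
        exact Finset.sum_le_sum h1
      have h6 := hlow X hWX hlt
      have h7 : (Module.finrank F Y : ℝ) - Module.finrank F X = (r : ℝ) + 1 := by
        have : Module.finrank F Y = Module.finrank F X + (r + 1) := by omega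
        rw [this]; push_cast; ring
      rw [h7] at h6
      rw [hr]
      have h8 : ((r : ℝ) + 1) * (r.choose h : ℝ) = ((r + 1).choose (h + 1) : ℝ) * ((h : ℝ) + 1) := by
        exact_mod_cast Nat.add_one_mul_choose_eq r h
      have h9 : tau * ((r : ℝ) + 1) * (((r.choose h : ℕ) : ℝ) * tau ^ h) ≤
          ((N.filter (fun i => v i ∉ X)).card : ℝ) * (((r.choose h : ℕ) : ℝ) * tau ^ h) :=
        mul_le_mul_of_nonneg_right h6 (by positivity)
      have h10 : ((h : ℝ) + 1) * ((((r + 1).choose (h + 1) : ℕ) : ℝ) * tau ^ (h + 1)) ≤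
          ((h : ℝ) + 1) * ((IS v N X (h + 1)).card : ℝ) := by
        calc ((h : ℝ) + 1) * ((((r + 1).choose (h + 1) : ℕ) : ℝ) * tau ^ (h + 1))
            = (((r + 1).choose (h + 1) : ℝ) * ((h : ℝ) + 1)) * (tau * tau ^ h) := by ring
          _ = tau * ((r : ℝ) + 1) * (((r.choose h : ℕ) : ℝ) * tau ^ h) := by rw [← h8]; ring
          _ ≤ _ := h9.trans h4
      exact le_of_mul_le_mul_left h10 (by positivity)

/-- strict lower bound for `ZZ` -/
lemma ZZ_lower [Finite V] {v : ι → V} {N : Finset ι} {tau x : ℝ} (htau : 0 < tau) (hx : 0 < x)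
    {W Y : Submodule F V} (hN : ∀ i ∈ N, v i ∈ Y) (hWY : W < Y)
    (hlow : ∀ X : Submodule F V, W ≤ X → X < Y →
      tau * ((Module.finrank F Y : ℝ) - Module.finrank F X) ≤
        ((N.filter (fun i => v i ∉ X)).card : ℝ))
    (hstrict : tau * ((Module.finrank F Y : ℝ) - Module.finrank F W) <
        ((N.filter (fun i => v i ∉ W)).card : ℝ)) :
    (1 + tau * x) ^ (Module.finrank F Y - Module.finrank F W) < ZZ F v N x W := by
  set r := Module.finrank F Y - Module.finrank F W with hr
  have hfr : Module.finrank F W < Module.finrank F Y := Submodule.finrank_lt_finrank_of_lt hWY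
  have h1 : (1 + tau * x) ^ r = ∑ h ∈ Finset.range (r + 1), ((r.choose h : ℕ) : ℝ) * (tau * x) ^ h := by
    rw [add_comm, add_pow]
    apply Finset.sum_congr rfl
    intro h _
    rw [one_pow]; ring
  have h2 : ∑ h ∈ Finset.range (r + 1), ((IS v N W h).card : ℝ) * x ^ h ≤ ZZ F v N x W := by
    have h3 : ∀ h ∈ Finset.range (r + 1), ((IS v N W h).card : ℝ) * x ^ h =
        ∑ J ∈ IS v N W h, x ^ J.card := by
      intro h _
      rw [← nsmul_eq_mul, ← Finset.sum_const]
      apply Finset.sum_congr rfl
      intro J hJ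
      rw [(mem_IS.mp hJ).2.2]
    rw [Finset.sum_congr rfl h3, ← Finset.sum_biUnion]
    · unfold ZZ
      apply Finset.sum_le_sum_of_subset_of_nonneg
      · intro J hJ
        rw [Finset.mem_biUnion] at hJ
        obtain ⟨h, _, hJ⟩ := hJ
        obtain ⟨a, b, _⟩ := mem_IS.mp hJ
        rw [Finset.mem_filter, Finset.mem_powerset]
        exact ⟨a, b⟩
      · intro J _ _
        positivity
    · intro a _ b _ hab
      rw [Function.onFun, Finset.disjoint_left]
      intro J hJ hJ'
      exact hab ((mem_IS.mp hJ).2.2.symm.trans (mem_IS.mp hJ').2.2)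
  refine lt_of_lt_of_le ?_ h2
  rw [h1]
  apply Finset.sum_lt_sum
  · intro h _
    have h4 := IS_lower htau hN hlow h W le_rfl hWY.le
    rw [mul_pow, ← mul_assoc]
    exact mul_le_mul_of_nonneg_right h4 (by positivity)
  · refine ⟨1, Finset.mem_range.mpr (by omega), ?_⟩
    have h5 : (IS v N W 1).card = (N.filter (fun i => v i ∉ W)).card := by
      have := cnt (F := F) (v := v) (N := N) (X := W) 0
      simp only [IS_zero, zero_add, one_mul] at this
      rw [this]
      simp
    rw [h5, Nat.choose_one_right, pow_one, pow_one, ← mul_assoc]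
    apply mul_lt_mul_of_pos_right _ hx
    have h6 : (r : ℝ) = (Module.finrank F Y : ℝ) - Module.finrank F W := by
      have : Module.finrank F Y = Module.finrank F W + r := by omega
      rw [this]; push_cast; ring
    rw [h6, mul_comm]
    exact hstrict

end

theorem t_DEN (h1 : T_Z1) (h3 : T_Z3) : T_DEN := by
  intro F _ _ V _ _ _ ι v N x c tau W hx hc htau hexp hZ
  by_contra hnot
  unfold Dens at hnot
  push Not at hnot
  -- a violating space of minimal dimension
  have hex : ∃ n : ℕ, ∃ Y : Submodule F V, Module.finrank F Y = n ∧ W ≤ Y ∧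
      tau * ((Module.finrank F Y : ℝ) - (Module.finrank F W : ℝ)) <
        ((N.filter (fun i => v i ∈ Y ∧ v i ∉ W)).card : ℝ) := by
    obtain ⟨Y, hY1, hY2⟩ := hnot
    exact ⟨_, Y, rfl, hY1, hY2⟩
  obtain ⟨Y, hYn, hWY, hY⟩ := Nat.find_spec hex
  have hmin : ∀ X : Submodule F V, W ≤ X → Module.finrank F X < Module.finrank F Y →
      ((N.filter (fun i => v i ∈ X ∧ v i ∉ W)).card : ℝ) ≤
        tau * ((Module.finrank F X : ℝ) - (Module.finrank F W : ℝ)) := by
    intro X hWX hX
    by_contra hcon
    push Not at hcon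
    rw [hYn] at hX
    exact Nat.find_min hex hX ⟨X, rfl, hWX, hcon⟩
  have hlt : W < Y := by
    rcases eq_or_lt_of_le hWY with rfl | h
    · exfalso
      have : N.filter (fun i => v i ∈ W ∧ v i ∉ W) = ∅ := by
        apply Finset.filter_false_of_mem
        rintro i _ ⟨a, b⟩
        exact b a
      rw [this] at hY
      simp at hY
    · exact h
  set NY := N.filter (fun i => v i ∈ Y) with hNY
  have hcard : ∀ X : Submodule F V, W ≤ X → X ≤ Y →
      ((NY.filter (fun i => v i ∉ X)).card : ℝ) =
        ((N.filter (fun i => v i ∈ Y ∧ v i ∉ W)).card : ℝ) -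
          ((N.filter (fun i => v i ∈ X ∧ v i ∉ W)).card : ℝ) := by
    intro X hWX hXY
    have hd : N.filter (fun i => v i ∈ Y ∧ v i ∉ W) =
        (NY.filter (fun i => v i ∉ X)) ∪ (N.filter (fun i => v i ∈ X ∧ v i ∉ W)) := by
      ext i
      simp only [Finset.mem_union, Finset.mem_filter, hNY]
      constructor
      · rintro ⟨a, b, c⟩
        by_cases hX : v i ∈ X
        · exact Or.inr ⟨a, hX, c⟩
        · exact Or.inl ⟨⟨a, b⟩, hX⟩
      · rintro (⟨⟨a, b⟩, c⟩ | ⟨a, b, c⟩)
        · exact ⟨a, b, fun h => c (hWX h)⟩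
        · exact ⟨a, hXY b, c⟩
    have hdd : Disjoint (NY.filter (fun i => v i ∉ X)) (N.filter (fun i => v i ∈ X ∧ v i ∉ W)) := by
      rw [Finset.disjoint_left]
      intro i h1 h2
      exact (Finset.mem_filter.mp h1).2 (Finset.mem_filter.mp h2).2.1
    rw [hd, Finset.card_union_of_disjoint hdd]
    push_cast; ring
  have hlow : ∀ X : Submodule F V, W ≤ X → X < Y →
      tau * ((Module.finrank F Y : ℝ) - Module.finrank F X) <
        ((NY.filter (fun i => v i ∉ X)).card : ℝ) := by
    intro X hWX hXY
    rw [hcard X hWX hXY.le]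
    have := hmin X hWX (Submodule.finrank_lt_finrank_of_lt hXY)
    linarith
  have hZl := ZZ_lower (v := v) (N := NY) htau hx (fun i hi => (Finset.mem_filter.mp hi).2) hlt
    (fun X a b => (hlow X a b).le) (hlow W le_rfl hlt)
  have hprod := h3 F V ι v N x W Y hx.le hWY
  have hZY : 1 ≤ ZZ F v N x Y := (h1 F V ι v N x hx.le).2.1 Y
  have hup := hZ Y hWY
  have hfr : Module.finrank F W < Module.finrank F Y := Submodule.finrank_lt_finrank_of_lt hlt
  have hr : (Module.finrank F Y : ℝ) - (Module.finrank F W : ℝ) =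
      ((Module.finrank F Y - Module.finrank F W : ℕ) : ℝ) := by
    rw [Nat.cast_sub hfr.le]
  rw [hr, mul_comm c, Real.exp_nat_mul] at hup
  have hpow : Real.exp c ^ (Module.finrank F Y - Module.finrank F W) ≤
      (1 + tau * x) ^ (Module.finrank F Y - Module.finrank F W) :=
    pow_le_pow_left₀ (Real.exp_pos c).le hexp _
  have : ZZ F v N x Y * ZZ F v NY x W ≤
      Real.exp c ^ (Module.finrank F Y - Module.finrank F W) * ZZ F v N x Y := hprod.trans hup
  have h5 : ZZ F v NY x W ≤ Real.exp c ^ (Module.finrank F Y - Module.finrank F W) := by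
    rw [mul_comm] at this
    exact le_of_mul_le_mul_right this (by linarith)
  linarith

end Pool.Agent.H24.CE
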